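import Pool.Agent.Helper86.Ac.Main
import Pool.Agent.Helper22.Acute.Geo
import Pool.Agent.Helper80.Acute.Pert
import Pool.Agent.Helper88.Acute.Fin
import Pool.Agent.Helper94.Ac.Min
import Pool.Agent.Helper77.Ac.Sound
import Pool.Agent.Helper16.Ac.SymD
import Pool.Agent.Helper27.Ac.Pay
import Pool.Agent.Helper80.Ac.SymKT
import Pool.Agent.Helper17.Ac.Sum
import Pool.Agent.Helper74.Ac.Avg
import Pool.Agent.Helper93.Ac.Kron
import Pool.Agent.Helper40.Ac.Five
import Pool.Agent.Helper69.Ac.Walk

/-! MP_1a78aa_co: the limit of the smallest proportion of non-acute angles is at least `0.1474`. -/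

namespace Pool.Agent.Results.MP_1a78aa_co.NonAcuteLower

open Filter Topology Pool.Agent.Helper86.Acute

/-- `minProp n` is the smallest proportion of non-acute angles among `n` distinct points of the
plane. It converges, and its limit is at least `0.1474`. -/
theorem result : ∃ L : ℝ, Tendsto minProp atTop (𝓝 L) ∧ (0.1474 : ℝ) ≤ L :=
  Pool.Agent.Helper86.Ac.main Pool.Agent.Helper22.Acute.geo Pool.Agent.Helper80.Acute.pert
    Pool.Agent.Helper88.Acute.fin Pool.Agent.Helper40.Ac.five Pool.Agent.Helper27.Ac.pay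
    Pool.Agent.Helper69.Ac.walk Pool.Agent.Helper77.Ac.sound Pool.Agent.Helper93.Ac.kron
    Pool.Agent.Helper17.Ac.sum Pool.Agent.Helper16.Ac.symd Pool.Agent.Helper80.Ac.symkt
    Pool.Agent.Helper94.Ac.min Pool.Agent.Helper74.Ac.avg

end Pool.Agent.Results.MP_1a78aa_co.NonAcuteLower
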